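import Pool.Agent.Helper60_AK.StmtA

/-!
# AK module A2: algebra of convolutions
-/

set_option autoImplicit false
set_option linter.unusedSectionVars false

namespace Pool.Agent.AK.H32

open Complex

section

variable {V : Type} [NormedAddCommGroup V]

theorem rap_norm {a : Z4 → V} (h : Rap a) : Rap (fun k => ((‖a k‖ : ℝ) : ℂ)) := by
  intro n
  obtain ⟨C, hC⟩ := h n
  exact ⟨C, fun k => by simpa using hC k⟩

theorem sum_norm (h1 : A1Stmt) {V1 V2 : Type} [NormedAddCommGroup V1] [NormedAddCommGroup V2]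
    {a : Z4 → V1} {w : Z4 → V2} (ha : Rap a) (hw : Rap w) :
    Rap (fun k => ((∑' l, ‖a (k - l)‖ * ‖w l‖ : ℝ) : ℂ)) ∧
      ∀ k, Summable fun l => ‖a (k - l)‖ * ‖w l‖ := by
  obtain ⟨h2, h3⟩ := h1.1 ℂ _ _ (rap_norm ha) (rap_norm hw)
  have e : ∀ k l, ((‖a (k - l)‖ : ℝ) : ℂ) • ((‖w l‖ : ℝ) : ℂ)
      = ((‖a (k - l)‖ * ‖w l‖ : ℝ) : ℂ) := by
    intro k l
    rw [smul_eq_mul, ofReal_mul]
  refine ⟨?_, fun k => ?_⟩
  · have : (fun k => ((∑' l, ‖a (k - l)‖ * ‖w l‖ : ℝ) : ℂ))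
        = scv (fun k => ((‖a k‖ : ℝ) : ℂ)) (fun k => ((‖w k‖ : ℝ) : ℂ)) := by
      funext k
      unfold scv
      rw [ofReal_tsum]
      exact tsum_congr fun l => (e k l).symm
    rw [this]
    exact h2
  · have h4 := (h3 k).norm
    refine h4.congr fun l => ?_
    rw [e, norm_real, Real.norm_of_nonneg (by positivity)]

variable [NormedSpace ℂ V] [CompleteSpace V]

/-- convolution of operator valued sequences -/
noncomputable def cc (M M' : Z4 → (V →L[ℂ] V)) : Z4 → (V →L[ℂ] V) :=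
  fun k => ∑' l, (M (k - l)).comp (M' l)

theorem rap_le {V1 V2 : Type} [NormedAddCommGroup V1] [NormedAddCommGroup V2] {a : Z4 → V1}
    {b : Z4 → V2} (h : ∀ k, ‖b k‖ ≤ ‖a k‖) (ha : Rap a) : Rap b := by
  intro n
  obtain ⟨C, hC⟩ := ha n
  refine ⟨C, fun k => le_trans ?_ (hC k)⟩
  exact mul_le_mul_of_nonneg_left (h k) (pow_nonneg (Real.sqrt_nonneg _) n)

theorem cc_rap (h1 : A1Stmt) {M M' : Z4 → (V →L[ℂ] V)} (hM : Rap M) (hM' : Rap M') :
    Rap (cc M M') ∧ ∀ k, Summable fun l => (M (k - l)).comp (M' l) := by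
  have h2 : Rap (fun k => ContinuousLinearMap.compL ℂ V V V (M k)) := by
    refine rap_le (fun k => ?_) hM
    refine ContinuousLinearMap.opNorm_le_bound _ (norm_nonneg _) fun x => ?_
    rw [ContinuousLinearMap.compL_apply]
    exact ContinuousLinearMap.opNorm_comp_le _ _
  obtain ⟨h3, h4⟩ := h1.2.1 (V →L[ℂ] V) (fun k => ContinuousLinearMap.compL ℂ V V V (M k)) M' h2 hM'
  have e : ∀ k l, (ContinuousLinearMap.compL ℂ V V V (M (k - l))) (M' l)
      = (M (k - l)).comp (M' l) := fun k l => by rw [ContinuousLinearMap.compL_apply]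
  refine ⟨?_, fun k => ?_⟩
  · have e2 : cc M M' = cv (fun k => ContinuousLinearMap.compL ℂ V V V (M k)) M' := by
      funext k
      unfold cc cv
      exact tsum_congr fun l => (e k l).symm
    rw [e2]
    exact h3
  · exact (h4 k).congr fun l => e k l

theorem cv_cv (h1 : A1Stmt) {M M' : Z4 → (V →L[ℂ] V)} {w : Z4 → V} (hM : Rap M) (hM' : Rap M')
    (hw : Rap w) : cv M (cv M' w) = cv (cc M M') w := by
  funext k
  unfold cv
  have s1 := (h1.2.1 V M' w hM' hw).2
  have e1 : ∀ l, (M (k - l)) (∑' j, (M' (l - j)) (w j))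
      = ∑' j, (M (k - l)) ((M' (l - j)) (w j)) := fun l => (M (k - l)).map_tsum (s1 l)
  rw [tsum_congr e1]
  obtain ⟨r2, s2⟩ := sum_norm h1 hM' hw
  obtain ⟨r3, s3⟩ := sum_norm h1 hM r2
  have hs : Summable (Function.uncurry fun l j => (M (k - l)) ((M' (l - j)) (w j))) := by
    have hg : Summable (fun p : Z4 × Z4 => ‖M (k - p.1)‖ * (‖M' (p.1 - p.2)‖ * ‖w p.2‖)) := by
      refine (summable_prod_of_nonneg fun p => by positivity).2 ⟨fun l => ?_, ?_⟩
      · show Summable fun j => ‖M (k - l)‖ * (‖M' (l - j)‖ * ‖w j‖)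
        exact (s2 l).mul_left _
      · show Summable fun l => ∑' j, ‖M (k - l)‖ * (‖M' (l - j)‖ * ‖w j‖)
        refine (s3 k).congr fun l => ?_
        rw [tsum_mul_left, norm_real, Real.norm_of_nonneg]
        exact tsum_nonneg fun j => by positivity
    refine Summable.of_norm_bounded hg fun p => ?_
    exact ((M (k - p.1)).le_opNorm _).trans
      (mul_le_mul_of_nonneg_left ((M' (p.1 - p.2)).le_opNorm _) (norm_nonneg _))
  have e3 : ∑' l, ∑' j, (M (k - l)) ((M' (l - j)) (w j))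
      = ∑' j, ∑' l, (M (k - l)) ((M' (l - j)) (w j)) := (Summable.tsum_comm hs).symm
  rw [e3]
  refine tsum_congr fun j => ?_
  have s4 := (cc_rap h1 hM hM').2 (k - j)
  have e2 : (cc M M' (k - j)) (w j) = ∑' i, (M (k - j - i)) ((M' i) (w j)) := by
    unfold cc
    rw [← ContinuousLinearMap.apply_apply (w j) (∑' l, _), ContinuousLinearMap.map_tsum _ s4]
    rfl
  rw [e2, ← (Equiv.addRight j).tsum_eq]
  refine tsum_congr fun i => ?_
  rw [Equiv.coe_addRight, add_sub_cancel_right, show k - (i + j) = k - j - i by abel]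

theorem scv_eq (a : Z4 → ℂ) (w : Z4 → V) :
    scv a w = cv (fun k => a k • (ContinuousLinearMap.id ℂ V)) w := by
  funext k
  unfold scv cv
  exact tsum_congr fun l => by simp

theorem cc_comm (a : Z4 → ℂ) (M : Z4 → (V →L[ℂ] V)) :
    cc (fun k => a k • (ContinuousLinearMap.id ℂ V)) M
      = cc M (fun k => a k • (ContinuousLinearMap.id ℂ V)) := by
  funext k
  unfold cc
  rw [← (Equiv.subLeft k).tsum_eq]
  refine tsum_congr fun l => ?_
  rw [Equiv.subLeft_apply, sub_sub_cancel]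
  ext x
  simp

theorem djcoef (j : Fin 4) (k l : Z4) :
    (2 * (Real.pi : ℂ) * Complex.I * ((k j : ℤ) : ℂ))
      = (2 * (Real.pi : ℂ) * Complex.I * (((k - l) j : ℤ) : ℂ))
        + (2 * (Real.pi : ℂ) * Complex.I * ((l j : ℤ) : ℂ)) := by
  rw [Pi.sub_apply]
  push_cast
  ring

end

/-- module A2 -/
theorem a2 (h1 : A1Stmt) : A2Stmt := by
  refine ⟨?_, ?_, ?_, ?_, ?_, ?_, ?_, ?_⟩
  · intro V _ _ _ a b w ha hb hw
    rw [scv_eq a, scv_eq b w, cv_cv h1 (h1.2.2.2.2.2.2 V a ha) (h1.2.2.2.2.2.2 V b hb) hw, scv_eq]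
    congr 1
    funext k
    unfold cc scv
    rw [← ((h1.1 ℂ a b ha hb).2 k).tsum_smul_const]
    refine tsum_congr fun l => ?_
    ext x
    simp [smul_smul, mul_comm]
  · intro a b _ _
    funext k
    unfold scv
    rw [← (Equiv.subLeft k).tsum_eq]
    refine tsum_congr fun l => ?_
    rw [Equiv.subLeft_apply, sub_sub_cancel, smul_eq_mul, smul_eq_mul, mul_comm]
  · intro V _ _ _ j a w ha hw
    funext k
    have s1 := (h1.1 V _ w (h1.2.2.1 ℂ j a ha) hw).2 k
    have s2 := (h1.1 V a _ ha (h1.2.2.1 V j w hw)).2 k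
    show (2 * (Real.pi : ℂ) * Complex.I * ((k j : ℤ) : ℂ)) • (∑' l, a (k - l) • w l) = _
    unfold scv
    rw [← s1.tsum_add s2, ← tsum_const_smul'']
    refine tsum_congr fun l => ?_
    unfold dj
    rw [djcoef j k l, add_smul, smul_smul, smul_smul, smul_smul, smul_eq_mul, mul_comm (a (k - l))]
  · intro V _ _ _ j a w ha hw
    funext k
    have s1 := (h1.2.1 V _ w (h1.2.2.1 (V →L[ℂ] V) j a ha) hw).2 k
    have s2 := (h1.2.1 V a _ ha (h1.2.2.1 V j w hw)).2 k
    show (2 * (Real.pi : ℂ) * Complex.I * ((k j : ℤ) : ℂ)) • (∑' l, (a (k - l)) (w l)) = _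
    unfold cv
    rw [← s1.tsum_add s2, ← tsum_const_smul'']
    refine tsum_congr fun l => ?_
    unfold dj
    rw [djcoef j k l, add_smul, smul_apply, map_smul]
  · intro V _ _ _ M a w hM ha hw
    have ha' := h1.2.2.2.2.2.2 V a ha
    rw [scv_eq a w, scv_eq a (cv M w), cv_cv h1 hM ha' hw, cv_cv h1 ha' hM hw, cc_comm]
  · intro V _ _ _ M M' hM hM'
    exact ⟨cc M M', (cc_rap h1 hM hM').1, fun w hw => cv_cv h1 hM hM' hw⟩
  · intro V _ _ _ M a hM ha
    have ha' := h1.2.2.2.2.2.2 V a ha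
    exact ⟨_, (cc_rap h1 ha' hM).1, fun w hw => by
      rw [scv_eq a (cv M w), cv_cv h1 ha' hM hw]⟩
  · intro i j V _ _ w
    funext k
    unfold dj
    rw [smul_comm]

end Pool.Agent.AK.H32
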