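import Pool.Agent.Helper32_AK.A2

/-!
# AK module A3: adjoints
-/

set_option autoImplicit false
set_option linter.unusedSectionVars false

namespace Pool.Agent.AK.H32

open Complex

section

variable {V : Type} [NormedAddCommGroup V]

theorem rap_add {v w : Z4 → V} (hv : Rap v) (hw : Rap w) : Rap (fun k => v k + w k) := by
  intro n
  obtain ⟨C, hC⟩ := hv n
  obtain ⟨C', hC'⟩ := hw n
  refine ⟨C + C', fun k => ?_⟩
  have h0 : 0 ≤ Lam 1 k ^ n := pow_nonneg (Real.sqrt_nonneg _) n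
  calc Lam 1 k ^ n * ‖v k + w k‖ ≤ Lam 1 k ^ n * (‖v k‖ + ‖w k‖) :=
        mul_le_mul_of_nonneg_left (norm_add_le _ _) h0
    _ = Lam 1 k ^ n * ‖v k‖ + Lam 1 k ^ n * ‖w k‖ := mul_add _ _ _
    _ ≤ C + C' := add_le_add (hC k) (hC' k)

theorem rap_neg {v : Z4 → V} (hv : Rap v) : Rap (fun k => - v k) :=
  rap_le (fun k => by rw [norm_neg]) hv

theorem rap_zero : Rap (fun _ : Z4 => (0 : V)) := fun n => ⟨0, fun k => by simp⟩

theorem rap_sum {n : ℕ} {v : Fin n → Z4 → V} (hv : ∀ j, Rap (v j)) :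
    Rap (fun k => ∑ j, v j k) := by
  induction n with
  | zero =>
    simp only [Finset.univ_eq_empty, Finset.sum_empty]
    exact rap_zero
  | succ n ih =>
    simp only [Fin.sum_univ_succ]
    exact rap_add (hv 0) (ih fun j => hv j.succ)

theorem rap_smul [NormedSpace ℂ V] (c : ℂ) {v : Z4 → V} (hv : Rap v) :
    Rap (fun k => c • v k) := by
  intro n
  obtain ⟨C, hC⟩ := hv n
  refine ⟨‖c‖ * C, fun k => ?_⟩
  rw [norm_smul]
  calc Lam 1 k ^ n * (‖c‖ * ‖v k‖) = ‖c‖ * (Lam 1 k ^ n * ‖v k‖) := by ring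
    _ ≤ ‖c‖ * C := mul_le_mul_of_nonneg_left (hC k) (norm_nonneg _)

theorem rap_bdd {v : Z4 → V} (hv : Rap v) : ∃ C, ∀ k, ‖v k‖ ≤ C := by
  obtain ⟨C, hC⟩ := hv 0
  exact ⟨C, fun k => by simpa using hC k⟩

theorem rap_summable (h1 : A1Stmt) [NormedSpace ℂ V] {v : Z4 → V} (hv : Rap v) :
    Summable fun k => ‖v k‖ := by
  have h := (h1.2.2.2.2.2.1 V 1 0 v le_rfl hv).2.1
  simpa using h

end

section

variable {V : Type} [NormedAddCommGroup V] [InnerProductSpace ℂ V] [CompleteSpace V]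

theorem ip_summable (h1 : A1Stmt) {v w : Z4 → V} (hv : Rap v) (hw : Rap w) :
    Summable fun k => (inner ℂ (v k) (w k) : ℂ) := by
  obtain ⟨C, hC⟩ := rap_bdd hv
  refine Summable.of_norm_bounded ((rap_summable h1 hw).mul_left C) fun k => ?_
  exact (norm_inner_le_norm _ _).trans (mul_le_mul_of_nonneg_right (hC k) (norm_nonneg _))

theorem ip_add_left (h1 : A1Stmt) {v v' w : Z4 → V} (hv : Rap v) (hv' : Rap v') (hw : Rap w) :
    ip (fun k => v k + v' k) w = ip v w + ip v' w := by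
  unfold ip
  rw [← (ip_summable h1 hv hw).tsum_add (ip_summable h1 hv' hw)]
  exact tsum_congr fun k => inner_add_left _ _ _

theorem ip_add_right (h1 : A1Stmt) {v w w' : Z4 → V} (hv : Rap v) (hw : Rap w) (hw' : Rap w') :
    ip v (fun k => w k + w' k) = ip v w + ip v w' := by
  unfold ip
  rw [← (ip_summable h1 hv hw).tsum_add (ip_summable h1 hv hw')]
  exact tsum_congr fun k => inner_add_right _ _ _

theorem ip_neg_right {v w : Z4 → V} : ip v (fun k => - w k) = - ip v w := by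
  unfold ip
  rw [← tsum_neg]
  exact tsum_congr fun k => inner_neg_right _ _

theorem ip_smul_left (c : ℂ) {v w : Z4 → V} :
    ip (fun k => c • v k) w = (starRingEnd ℂ) c * ip v w := by
  unfold ip
  rw [← tsum_mul_left]
  exact tsum_congr fun k => inner_smul_left _ _ _

theorem ip_smul_right (c : ℂ) {v w : Z4 → V} :
    ip v (fun k => c • w k) = c * ip v w := by
  unfold ip
  rw [← tsum_mul_left]
  exact tsum_congr fun k => inner_smul_right _ _ _

theorem ip_sum_left (h1 : A1Stmt) {n : ℕ} {v : Fin n → Z4 → V} {w : Z4 → V}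
    (hv : ∀ j, Rap (v j)) (hw : Rap w) :
    ip (fun k => ∑ j, v j k) w = ∑ j, ip (v j) w := by
  unfold ip
  rw [← Summable.tsum_finsetSum fun j _ => ip_summable h1 (hv j) hw]
  exact tsum_congr fun k => sum_inner _ _ _

theorem ip_sum_right (h1 : A1Stmt) {n : ℕ} {w : Fin n → Z4 → V} {v : Z4 → V}
    (hw : ∀ j, Rap (w j)) (hv : Rap v) :
    ip v (fun k => ∑ j, w j k) = ∑ j, ip v (w j) := by
  unfold ip
  rw [← Summable.tsum_finsetSum fun j _ => ip_summable h1 hv (hw j)]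
  exact tsum_congr fun k => inner_sum _ _ _

theorem inner_tsum_right {ι : Type} {f : ι → V} (hf : Summable f) (x : V) :
    (inner ℂ x (∑' i, f i) : ℂ) = ∑' i, inner ℂ x (f i) := by
  have := (innerSL ℂ x).map_tsum hf
  simpa using this

theorem inner_tsum_left {ι : Type} {f : ι → V} (hf : Summable f) (x : V) :
    (inner ℂ (∑' i, f i) x : ℂ) = ∑' i, inner ℂ (f i) x := by
  rw [← inner_conj_symm, inner_tsum_right hf, Complex.conj_tsum]
  exact tsum_congr fun i => inner_conj_symm _ _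

theorem ip_cv (h1 : A1Stmt) {M M' : Z4 → (V →L[ℂ] V)}
    (hadj : ∀ k x y, (inner ℂ (M k x) y : ℂ) = inner ℂ x (M' (-k) y)) {v w : Z4 → V}
    (hM : Rap M) (hM' : Rap M') (hv : Rap v) (hw : Rap w) :
    ip (cv M v) w = ip v (cv M' w) := by
  unfold ip
  have s1 := (h1.2.1 V M v hM hv).2
  have s2 := (h1.2.1 V M' w hM' hw).2
  obtain ⟨r3, s3⟩ := sum_norm h1 hM hv
  obtain ⟨C, hC⟩ := rap_bdd r3
  have hs : Summable (Function.uncurry fun k l => (inner ℂ ((M (k - l)) (v l)) (w k) : ℂ)) := by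
    have hg : Summable (fun p : Z4 × Z4 => (‖M (p.1 - p.2)‖ * ‖v p.2‖) * ‖w p.1‖) := by
      refine (summable_prod_of_nonneg fun p => by positivity).2 ⟨fun k => ?_, ?_⟩
      · show Summable fun l => (‖M (k - l)‖ * ‖v l‖) * ‖w k‖
        exact (s3 k).mul_right _
      · show Summable fun k => ∑' l, (‖M (k - l)‖ * ‖v l‖) * ‖w k‖
        refine Summable.of_nonneg_of_le (fun k => tsum_nonneg fun l => by positivity) (fun k => ?_)
          ((rap_summable h1 hw).mul_left C)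
        rw [tsum_mul_right]
        refine mul_le_mul_of_nonneg_right ?_ (norm_nonneg _)
        have := hC k
        rw [norm_real] at this
        exact (le_abs_self _).trans this
    refine Summable.of_norm_bounded hg fun p => ?_
    exact (norm_inner_le_norm _ _).trans
      (mul_le_mul_of_nonneg_right ((M (p.1 - p.2)).le_opNorm _) (norm_nonneg _))
  have e1 : ∀ k, (inner ℂ (cv M v k) (w k) : ℂ) = ∑' l, inner ℂ ((M (k - l)) (v l)) (w k) :=
    fun k => inner_tsum_left (s1 k) _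
  have e2 : ∀ l, (inner ℂ (v l) (cv M' w l) : ℂ) = ∑' k, inner ℂ (v l) ((M' (l - k)) (w k)) :=
    fun l => inner_tsum_right (s2 l) _
  have e3 : ∑' k, ∑' l, (inner ℂ ((M (k - l)) (v l)) (w k) : ℂ)
      = ∑' l, ∑' k, inner ℂ ((M (k - l)) (v l)) (w k) := (Summable.tsum_comm hs).symm
  rw [tsum_congr e1, tsum_congr e2, e3]
  refine tsum_congr fun l => tsum_congr fun k => ?_
  rw [hadj, neg_sub]

theorem ip_scv (h1 : A1Stmt) {a : Z4 → ℂ} {v w : Z4 → V} (ha : Rap a) (hv : Rap v) (hw : Rap w) :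
    ip (scv a v) w = ip v (scv (stS a) w) := by
  rw [scv_eq, scv_eq]
  refine ip_cv h1 (fun k x y => ?_) (h1.2.2.2.2.2.2 V a ha)
    (h1.2.2.2.2.2.2 V _ (h1.2.2.2.1 a ha)) hv hw
  unfold stS
  rw [neg_neg, smul_apply, smul_apply, inner_smul_left, inner_smul_right]
  rfl

theorem ip_dj (j : Fin 4) {v w : Z4 → V} : ip (dj j v) w = - ip v (dj j w) := by
  unfold ip dj
  rw [← tsum_neg]
  refine tsum_congr fun k => ?_
  rw [inner_smul_left, inner_smul_right]
  have : (starRingEnd ℂ) (2 * (Real.pi : ℂ) * Complex.I * ((k j : ℤ) : ℂ))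
      = - (2 * (Real.pi : ℂ) * Complex.I * ((k j : ℤ) : ℂ)) := by
    rw [map_mul, map_mul, map_mul, conj_ofReal, conj_I, map_ofNat, map_intCast]
    ring
  rw [this, neg_mul]

theorem ip_lm (A : ℝ) (s : ℤ) {v w : Z4 → V} : ip (Lm A s v) w = ip v (Lm A s w) := by
  unfold ip Lm
  refine tsum_congr fun k => ?_
  rw [inner_smul_left, inner_smul_right, conj_ofReal]

theorem lam_pos {A : ℝ} (hA : 1 ≤ A) (k : Z4) : 0 < Lam A k := by
  unfold Lam sq4
  have : 0 ≤ ∑ i, ((k i : ℤ) : ℝ) ^ 2 := Finset.sum_nonneg fun i _ => sq_nonneg _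
  exact Real.sqrt_pos.2 (by linarith)

theorem ip_cs (h1 : A1Stmt) {A : ℝ} (s : ℤ) {v w : Z4 → V} (hA : 1 ≤ A) (hv : Rap v)
    (hw : Rap w) : ‖ip v w‖ ≤ hn A s v * hn A (-s) w := by
  have hsv := (h1.2.2.2.2.2.1 V A s v hA hv).2.2
  have hsw := (h1.2.2.2.2.2.1 V A (-s) w hA hw).2.2
  have e : ∀ (s : ℤ) (v : Z4 → V) k, Lam A k ^ (2 * s) * ‖v k‖ ^ 2
      = (Lam A k ^ s * ‖v k‖) ^ (2 : ℝ) := by
    intro s v k
    have : (2 : ℝ) = ((2 : ℕ) : ℝ) := by norm_num
    rw [this, Real.rpow_natCast, mul_pow, mul_comm 2 s, zpow_mul]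
    rfl
  have hh := Real.inner_le_Lp_mul_Lq_tsum_of_nonneg (p := 2) (q := 2)
    (f := fun k => Lam A k ^ s * ‖v k‖) (g := fun k => Lam A k ^ (-s) * ‖w k‖)
    Real.HolderConjugate.two_two
    (fun k => mul_nonneg (zpow_nonneg (lam_pos hA k).le _) (norm_nonneg _))
    (fun k => mul_nonneg (zpow_nonneg (lam_pos hA k).le _) (norm_nonneg _))
    (hsv.congr fun k => (e s v k)) (hsw.congr fun k => (e (-s) w k))
  have e2 : ∀ k, (Lam A k ^ s * ‖v k‖) * (Lam A k ^ (-s) * ‖w k‖) = ‖v k‖ * ‖w k‖ := by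
    intro k
    have : Lam A k ^ s * Lam A k ^ (-s) = 1 := by
      rw [← zpow_add₀ (lam_pos hA k).ne', add_neg_cancel, zpow_zero]
    calc (Lam A k ^ s * ‖v k‖) * (Lam A k ^ (-s) * ‖w k‖)
        = (Lam A k ^ s * Lam A k ^ (-s)) * (‖v k‖ * ‖w k‖) := by ring
      _ = _ := by rw [this, one_mul]
  have s0 : Summable fun k => ‖v k‖ * ‖w k‖ := by
    obtain ⟨C, hC⟩ := rap_bdd hv
    exact Summable.of_nonneg_of_le (fun k => by positivity)
      (fun k => mul_le_mul_of_nonneg_right (hC k) (norm_nonneg _))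
      ((rap_summable h1 hw).mul_left C)
  unfold ip hn
  have s1 : Summable fun k => ‖(inner ℂ (v k) (w k) : ℂ)‖ :=
    Summable.of_nonneg_of_le (fun k => norm_nonneg _) (fun k => norm_inner_le_norm _ _) s0
  calc ‖∑' k, (inner ℂ (v k) (w k) : ℂ)‖ ≤ ∑' k, ‖(inner ℂ (v k) (w k) : ℂ)‖ := norm_tsum_le_tsum_norm s1
    _ ≤ ∑' k, ‖v k‖ * ‖w k‖ := s1.tsum_le_tsum (fun k => norm_inner_le_norm _ _) s0
    _ = ∑' k, (Lam A k ^ s * ‖v k‖) * (Lam A k ^ (-s) * ‖w k‖) :=
        tsum_congr fun k => (e2 k).symm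
    _ ≤ _ := hh
    _ = _ := by
        rw [Real.sqrt_eq_rpow, Real.sqrt_eq_rpow, tsum_congr (e s v), tsum_congr (e (-s) w)]

theorem ip_self {A : ℝ} {w : Z4 → V} : ip w w = (((hn A 0 w) ^ 2 : ℝ) : ℂ) := by
  unfold ip hn
  rw [Real.sq_sqrt (tsum_nonneg fun k => by simp), ofReal_tsum]
  refine tsum_congr fun k => ?_
  rw [inner_self_eq_norm_sq_to_K]
  simp

end

theorem stS_dj (j : Fin 4) (a : Z4 → ℂ) : stS (dj j a) = dj j (stS a) := by
  funext k
  unfold stS dj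
  rw [smul_eq_mul, smul_eq_mul, map_mul]
  congr 1
  rw [map_mul, map_mul, map_mul, conj_ofReal, conj_I, map_ofNat, map_intCast, Pi.neg_apply]
  push_cast
  ring

theorem stS_scv (a b : Z4 → ℂ) : stS (scv a b) = scv (stS a) (stS b) := by
  funext k
  unfold stS scv
  rw [Complex.conj_tsum, ← (Equiv.neg Z4).tsum_eq]
  refine tsum_congr fun l => ?_
  rw [Equiv.neg_apply, smul_eq_mul, smul_eq_mul, map_mul, show -k - -l = -(k - l) by abel]

theorem stS_vf (a : Fin 4 → Z4 → ℂ) {φ : Z4 → ℂ} (hφ : stS φ = φ) :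
    stS (vf a φ) = vf (fun i => stS (a i)) φ := by
  funext k
  have e : ∀ j, (starRingEnd ℂ) (scv (a j) (dj j φ) (-k)) = scv (stS (a j)) (dj j φ) k := by
    intro j
    have h := congrFun (stS_scv (a j) (dj j φ)) k
    rw [stS_dj, hφ] at h
    exact h
  show (starRingEnd ℂ) (∑ j, scv (a j) (dj j φ) (-k)) = ∑ j, scv (stS (a j)) (dj j φ) k
  rw [map_sum]
  exact Finset.sum_congr rfl fun j _ => e j

theorem rap_vf (h1 : A1Stmt) {V : Type} [NormedAddCommGroup V] [NormedSpace ℂ V]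
    [CompleteSpace V] {a : Fin 4 → Z4 → ℂ} (ha : ∀ j, Rap (a j)) {w : Z4 → V} (hw : Rap w) :
    Rap (vf a w) :=
  rap_sum fun j => (h1.1 V _ _ (ha j) (h1.2.2.1 V j w hw)).1

theorem ip_vf (h1 : A1Stmt) (h2 : A2Stmt) {V : Type} [NormedAddCommGroup V]
    [InnerProductSpace ℂ V] [CompleteSpace V] {a : Fin 4 → Z4 → ℂ} (ha : ∀ j, Rap (a j))
    {v w : Z4 → V} (hv : Rap v) (hw : Rap w) :
    ip (vf a v) w = - ip v (vf (fun i => stS (a i)) w)
      - ip v (scv (fun l => ∑ j, dj j (stS (a j)) l) w) := by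
  have ra := fun j => h1.2.2.2.1 _ (ha j)
  have rd := fun j => h1.2.2.1 ℂ j _ (ra j)
  have r1 := fun j => (h1.1 V _ _ (ra j) (h1.2.2.1 V j w hw)).1
  have r2 := fun j => (h1.1 V _ _ (rd j) hw).1
  have e1 : ∀ j, ip (scv (a j) (dj j v)) w
      = - ip v (scv (stS (a j)) (dj j w)) - ip v (scv (dj j (stS (a j))) w) := by
    intro j
    rw [ip_scv h1 (ha j) (h1.2.2.1 V j v hv) hw, ip_dj, h2.2.2.1 V j _ w (ra j) hw,
      ip_add_right h1 hv (r2 j) (r1 j)]
    ring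
  have e2 : scv (fun l => ∑ j, dj j (stS (a j)) l) w
      = fun k => ∑ j, scv (dj j (stS (a j))) w k := by
    funext k
    unfold scv
    rw [← Summable.tsum_finsetSum fun j _ => (h1.1 V _ _ (rd j) hw).2 k]
    exact tsum_congr fun l => Finset.sum_smul
  have e3 : ip (vf a v) w = ∑ j, ip (scv (a j) (dj j v)) w :=
    ip_sum_left h1 (fun j => (h1.1 V _ _ (ha j) (h1.2.2.1 V j v hv)).1) hw
  have e4 : ip v (vf (fun i => stS (a i)) w) = ∑ j, ip v (scv (stS (a j)) (dj j w)) :=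
    ip_sum_right h1 r1 hv
  rw [e3, e4, e2, ip_sum_right h1 r2 hv, ← Finset.sum_neg_distrib, ← Finset.sum_sub_distrib]
  exact Finset.sum_congr rfl fun j _ => e1 j

theorem ip_cvM (h1 : A1Stmt) {N : ℕ}
    {a : Z4 → (EuclideanSpace ℂ (Fin N) →L[ℂ] EuclideanSpace ℂ (Fin N))}
    {v w : Z4 → EuclideanSpace ℂ (Fin N)} (ha : Rap a) (hv : Rap v) (hw : Rap w) :
    ip (cv a v) w = ip v (cv (stM a) w) := by
  refine ip_cv h1 (fun k x y => ?_) ha (h1.2.2.2.2.1 N a ha) hv hw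
  unfold stM
  rw [neg_neg, ContinuousLinearMap.adjoint_inner_right]

/-- module A3 -/
theorem a3 (h1 : A1Stmt) (h2 : A2Stmt) : A3Stmt := by
  refine ⟨?_, ?_, ?_, ?_, ?_, ?_, ?_⟩
  · intro V _ _ _ a v w ha hv hw
    exact ip_scv h1 ha hv hw
  · intro N a v w ha hv hw
    exact ip_cvM h1 ha hv hw
  · intro V _ _ _ j v w _ _
    exact ip_dj j
  · intro V _ _ _ A s v w _ _ _
    exact ip_lm A s
  · intro V _ _ _ A s v w hA hv hw
    exact ip_cs h1 s hA hv hw
  · intro V _ _ _ A w _ _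
    exact ip_self
  · intro N D t v w hv hw
    have rf : Rap (vf D.a D.φ) := rap_vf h1 D.ra D.rφ
    have rf' : Rap (vf (fun i => stS (D.a i)) D.φ) :=
      rap_vf h1 (fun j => h1.2.2.2.1 _ (D.ra j)) D.rφ
    have rd : Rap (fun l => ∑ j, dj j (stS (D.a j)) l) :=
      rap_sum fun j => h1.2.2.1 ℂ j _ (h1.2.2.2.1 _ (D.ra j))
    have q1 : Rap (vf D.a v) := rap_vf h1 D.ra hv
    have q2 : Rap (scv (vf D.a D.φ) v) := (h1.1 _ _ _ rf hv).1
    have q3 : Rap (cv D.M v) := (h1.2.1 _ _ _ D.rM hv).1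
    have p1 : ∀ v : Z4 → EuclideanSpace ℂ (Fin N), Rap v →
        Rap (vf (fun i => stS (D.a i)) v) := fun v hv =>
      rap_vf h1 (fun j => h1.2.2.2.1 _ (D.ra j)) hv
    have p2 : ∀ v : Z4 → EuclideanSpace ℂ (Fin N), Rap v →
        Rap (scv (fun l => ∑ j, dj j (stS (D.a j)) l) v) := fun v hv => (h1.1 _ _ _ rd hv).1
    have p3 : ∀ v : Z4 → EuclideanSpace ℂ (Fin N), Rap v →
        Rap (scv (vf (fun i => stS (D.a i)) D.φ) v) := fun v hv => (h1.1 _ _ _ rf' hv).1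
    have p4 : ∀ v : Z4 → EuclideanSpace ℂ (Fin N), Rap v →
        Rap (cv (stM D.M) v) := fun v hv => (h1.2.1 _ _ _ (h1.2.2.2.2.1 N _ D.rM) hv).1
    have eqs : ∀ v : Z4 → EuclideanSpace ℂ (Fin N), D.Qs t v = fun k =>
        (((- vf (fun i => stS (D.a i)) v k) + (- scv (fun l => ∑ j, dj j (stS (D.a j)) l) v k))
          + ((t / 2 : ℝ) : ℂ) • scv (vf (fun i => stS (D.a i)) D.φ) v k) + cv (stM D.M) v k := by
      intro v
      funext k
      show - vf (fun i => stS (D.a i)) v k - scv (fun l => ∑ j, dj j (stS (D.a j)) l) v k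
        + ((t / 2 : ℝ) : ℂ) • scv (vf (fun i => stS (D.a i)) D.φ) v k + cv (stM D.M) v k = _
      rw [sub_eq_add_neg]
    refine ⟨rap_add (rap_add q1 (rap_smul _ q2)) q3, ?_, ?_⟩
    · rw [eqs]
      exact rap_add (rap_add (rap_add (rap_neg (p1 v hv)) (rap_neg (p2 v hv)))
        (rap_smul _ (p3 v hv))) (p4 v hv)
    · rw [eqs, ip_add_right h1 hv (rap_add (rap_add (rap_neg (p1 w hw)) (rap_neg (p2 w hw)))
        (rap_smul _ (p3 w hw))) (p4 w hw), ip_add_right h1 hv (rap_add (rap_neg (p1 w hw))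
        (rap_neg (p2 w hw))) (rap_smul _ (p3 w hw)), ip_add_right h1 hv (rap_neg (p1 w hw))
        (rap_neg (p2 w hw)), ip_neg_right, ip_neg_right, ip_smul_right]
      have : ip (D.Q t v) w = ip (vf D.a v) w + ((t / 2 : ℝ) : ℂ) * ip (scv (vf D.a D.φ) v) w
          + ip (cv D.M v) w := by
        have e5 : D.Q t v = fun k => (vf D.a v k + ((t / 2 : ℝ) : ℂ) • scv (vf D.a D.φ) v k)
            + cv D.M v k := rfl
        rw [e5, ip_add_left h1 (rap_add q1 (rap_smul _ q2)) q3 hw,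
          ip_add_left h1 q1 (rap_smul _ q2) hw, ip_smul_left, conj_ofReal]
      rw [this, ip_vf h1 h2 D.ra hv hw, ip_scv h1 rf hv hw, stS_vf _ D.sφ, ip_cvM h1 D.rM hv hw]
      ring

end Pool.Agent.AK.H32
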