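import Pool.Agent.Helper60_AK.StmtF

/-!
# AK part F: smoothness of the frame, derivatives of compositions
-/

set_option autoImplicit false

namespace Pool.Agent.AK.H32

open Complex Set

theorem sm_add : (SM + 1 : WithTop ℕ∞) ≤ SM := by
  exact le_of_eq rfl

theorem nat_le_SM (n : ℕ) : (n : WithTop ℕ∞) ≤ SM :=
  WithTop.coe_le_coe.2 (le_top (a := (n : ℕ∞)))

section

variable {V : Type} [NormedAddCommGroup V] [NormedSpace ℂ V]

theorem smooth_dz {u : C2 → V} (hu : ContDiff ℝ SM u) (j : Fin 2) : ContDiff ℝ SM (dz j u) := by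
  have h := hu.fderiv_right (m := SM) sm_add
  exact ((h.clm_apply contDiff_const).sub ((h.clm_apply contDiff_const).const_smul I)).const_smul
    (1 / 2 : ℂ)

theorem smooth_dzb {u : C2 → V} (hu : ContDiff ℝ SM u) (j : Fin 2) : ContDiff ℝ SM (dzb j u) := by
  have h := hu.fderiv_right (m := SM) sm_add
  exact ((h.clm_apply contDiff_const).add ((h.clm_apply contDiff_const).const_smul I)).const_smul
    (1 / 2 : ℂ)

end

theorem smooth_rc {ρ : C2 → ℝ} (h : ContDiff ℝ SM ρ) : ContDiff ℝ SM (rc ρ) :=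
  Complex.ofRealCLM.contDiff.comp h

theorem smooth_rj {ρ : C2 → ℝ} (h : ContDiff ℝ SM ρ) (j : Fin 2) : ContDiff ℝ SM (rj ρ j) :=
  smooth_dz (smooth_rc h) j

theorem smooth_rjb {ρ : C2 → ℝ} (h : ContDiff ℝ SM ρ) (j : Fin 2) : ContDiff ℝ SM (rjb ρ j) :=
  smooth_dzb (smooth_rc h) j

theorem smooth_g2 {ρ : C2 → ℝ} (h : ContDiff ℝ SM ρ) : ContDiff ℝ SM (g2 ρ) :=
  ((smooth_rj h 0).mul (smooth_rjb h 0)).add ((smooth_rj h 1).mul (smooth_rjb h 1))

theorem smooth_tau {ρ : C2 → ℝ} (h : ContDiff ℝ SM ρ) : ContDiff ℝ SM (tau ρ) := by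
  rw [contDiff_pi]
  intro i
  fin_cases i
  · exact smooth_rj h 1
  · exact (smooth_rj h 0).neg

theorem open_g2 {ρ : C2 → ℝ} (h : ContDiff ℝ SM ρ) : IsOpen {p | g2 ρ p ≠ 0} :=
  isOpen_ne_fun (smooth_g2 h).continuous continuous_const

theorem smooth_nu {ρ : C2 → ℝ} (h : ContDiff ℝ SM ρ) :
    ContDiffOn ℝ SM (nu ρ) {p | g2 ρ p ≠ 0} := by
  have hi : ContDiffOn ℝ SM (fun p => (g2 ρ p)⁻¹) {p | g2 ρ p ≠ 0} :=
    (smooth_g2 h).contDiffOn.inv fun p hp => hp
  rw [contDiffOn_pi]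
  intro i
  fin_cases i
  · exact ((smooth_rjb h 0).neg.contDiffOn.mul hi).congr fun p _ => div_eq_mul_inv _ _
  · exact ((smooth_rjb h 1).neg.contDiffOn.mul hi).congr fun p _ => div_eq_mul_inv _ _

section

variable {E F G : Type} [NormedAddCommGroup E] [NormedSpace ℝ E] [NormedAddCommGroup F]
  [NormedSpace ℝ F] [NormedAddCommGroup G] [NormedSpace ℝ G]

/-- bound for the derivatives of a composition, on open sets -/
theorem comp_bd {Ω : Set F} {s : Set E} {Φ : E → F} {g : F → G} {j : ℕ} (hΩ : IsOpen Ω)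
    (hs : IsOpen s) (hg : ContDiffOn ℝ (j : WithTop ℕ∞) g Ω)
    (hΦ : ContDiffOn ℝ (j : WithTop ℕ∞) Φ s) (hst : MapsTo Φ s Ω) {x : E} (hx : x ∈ s) {C D : ℝ}
    (hC : ∀ i ≤ j, ‖iteratedFDeriv ℝ i g (Φ x)‖ ≤ C)
    (hD : ∀ i, 1 ≤ i → i ≤ j → ‖iteratedFDeriv ℝ i Φ x‖ ≤ D ^ i) :
    ‖iteratedFDeriv ℝ j (fun y => g (Φ y)) x‖ ≤ (j.factorial : ℝ) * C * D ^ j := by
  have h := norm_iteratedFDerivWithin_comp_le hg hΦ le_rfl hΩ.uniqueDiffOn hs.uniqueDiffOn hst hx
    (C := C) (D := D) (fun i hi => by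
      rw [iteratedFDerivWithin_of_isOpen i hΩ (hst hx)]
      exact hC i hi) (fun i h1 h2 => by
      rw [iteratedFDerivWithin_of_isOpen i hs hx]
      exact hD i h1 h2)
  rw [iteratedFDerivWithin_of_isOpen j hs hx] at h
  exact h

/-- bounded derivatives on a compact subset of an open set -/
theorem bd_cpt {u : E → F} {U K : Set E} (hU : IsOpen U) (hu : ContDiffOn ℝ SM u U)
    (hK : IsCompact K) (hKU : K ⊆ U) (n : ℕ) :
    ∃ C : ℝ, 0 ≤ C ∧ ∀ i ≤ n, ∀ x ∈ K, ‖iteratedFDeriv ℝ i u x‖ ≤ C := by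
  induction n with
  | zero =>
    have hc : ContinuousOn (iteratedFDeriv ℝ 0 u) U :=
      (hu.continuousOn_iteratedFDerivWithin (m := 0) (by simp) hU.uniqueDiffOn).congr
        fun x hx => (iteratedFDerivWithin_of_isOpen 0 hU hx).symm
    obtain ⟨C, hC⟩ := hK.exists_bound_of_continuousOn (hc.mono hKU)
    refine ⟨max C 0, le_max_right _ _, fun i hi x hx => ?_⟩
    obtain rfl : i = 0 := by omega
    exact (hC x hx).trans (le_max_left _ _)
  | succ n ih =>
    obtain ⟨C', h0, hC'⟩ := ih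
    have hc : ContinuousOn (iteratedFDeriv ℝ (n + 1) u) U :=
      (hu.continuousOn_iteratedFDerivWithin (m := n + 1) (nat_le_SM (n + 1))
        hU.uniqueDiffOn).congr fun x hx => (iteratedFDerivWithin_of_isOpen (n + 1) hU hx).symm
    obtain ⟨C, hC⟩ := hK.exists_bound_of_continuousOn (hc.mono hKU)
    refine ⟨max C C', le_max_of_le_right h0, fun i hi x hx => ?_⟩
    rcases Nat.lt_or_ge i (n + 1) with h | h
    · exact (hC' i (by omega) x hx).trans (le_max_right _ _)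
    · obtain rfl : i = n + 1 := by omega
      exact (hC x hx).trans (le_max_left _ _)

/-- difference of derivatives: one step -/
theorem diff_succ {E' : Type} [NormedAddCommGroup E'] [NormedSpace ℝ E'] {u v : E' → G}
    {x y : E'} (j : ℕ) :
    ‖iteratedFDeriv ℝ (j + 1) u x - iteratedFDeriv ℝ (j + 1) v y‖
      = ‖iteratedFDeriv ℝ j (fderiv ℝ u) x - iteratedFDeriv ℝ j (fderiv ℝ v) y‖ := by
  rw [iteratedFDeriv_succ_eq_comp_right, iteratedFDeriv_succ_eq_comp_right, Function.comp_apply,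
    Function.comp_apply, ← dist_eq_norm, ← dist_eq_norm]
  exact (continuousMultilinearCurryRightEquiv' ℝ j E' G).symm.isometry.dist_eq _ _

theorem psi_bd {U : Set E} {ν : E → E} (hU : IsOpen U) (hν : ContDiffOn ℝ SM ν U) {q : E}
    (hq : q ∈ U) {C : ℝ} {j : ℕ} (hC : ∀ i ≤ j, ‖iteratedFDeriv ℝ i ν q‖ ≤ C) {t : ℝ}
    (ht0 : 0 ≤ t) (ht1 : t ≤ 1) {C' : ℝ} (hC' : ∀ i ≤ j, ‖iteratedFDeriv ℝ i (id : E → E) q‖ ≤ C') :
    ∀ i, 1 ≤ i → i ≤ j → ‖iteratedFDeriv ℝ i (fun x => x + t • ν x) q‖ ≤ (1 + C + C') ^ i := by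
  intro i h1 h2
  have hνq : ContDiffAt ℝ SM ν q := hν.contDiffAt (hU.mem_nhds hq)
  have e : iteratedFDeriv ℝ i (fun x => x + t • ν x) q
      = iteratedFDeriv ℝ i (id : E → E) q + t • iteratedFDeriv ℝ i ν q := by
    have h5 := iteratedFDeriv_add_apply (𝕜 := ℝ) (f := (id : E → E)) (g := t • ν) (i := i)
      (x := q) contDiffAt_id ((hνq.of_le (nat_le_SM i)).const_smul t)
    rw [iteratedFDeriv_const_smul_apply (a := t) (hνq.of_le (nat_le_SM i))] at h5
    exact h5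
  have h3 : 0 ≤ C := (norm_nonneg _).trans (hC 0 (Nat.zero_le _))
  have h4 : 0 ≤ C' := (norm_nonneg _).trans (hC' 0 (Nat.zero_le _))
  calc ‖iteratedFDeriv ℝ i (fun x => x + t • ν x) q‖
      ≤ ‖iteratedFDeriv ℝ i (id : E → E) q‖ + ‖t • iteratedFDeriv ℝ i ν q‖ := by
        rw [e]
        exact norm_add_le _ _
    _ ≤ C' + 1 * C := by
        rw [norm_smul]
        refine add_le_add (hC' i h2) (mul_le_mul ?_ (hC i h2) (norm_nonneg _) zero_le_one)
        rw [Real.norm_of_nonneg ht0]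
        exact ht1
    _ ≤ 1 + C + C' := by linarith
    _ ≤ (1 + C + C') ^ i := le_self_pow₀ (by linarith) (by omega)

/-- the derivatives of g(x + t ν x) are close to those of g at x + t ν x -/
theorem diff_comp {Ω U K : Set E} {ν : E → E} (hΩ : IsOpen Ω) (hU : IsOpen U)
    (hν : ContDiffOn ℝ SM ν U) (hK : IsCompact K) (hKU : K ⊆ U) (j : ℕ) :
    ∀ (G : Type) [NormedAddCommGroup G] [NormedSpace ℝ G], ∃ C : ℝ, 0 ≤ C ∧
      ∀ (g : E → G) (B t : ℝ) (q : E), ContDiffOn ℝ SM g Ω → 0 ≤ B → 0 ≤ t → t ≤ 1 → q ∈ K →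
        q + t • ν q ∈ Ω → (∀ i ≤ j, ‖iteratedFDeriv ℝ i g (q + t • ν q)‖ ≤ B) →
        ‖iteratedFDeriv ℝ j (fun x => g (x + t • ν x)) q - iteratedFDeriv ℝ j g (q + t • ν q)‖
          ≤ C * B * t := by
  induction j with
  | zero =>
    intro G _ _
    refine ⟨0, le_rfl, fun g B t q _ _ _ _ _ _ _ => ?_⟩
    have : iteratedFDeriv ℝ 0 (fun x => g (x + t • ν x)) q
        = iteratedFDeriv ℝ 0 g (q + t • ν q) := by
      ext m
      simp
    rw [this, sub_self, norm_zero]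
    simp
  | succ j ih =>
    intro G _ _
    obtain ⟨C1, hC10, hC1⟩ := ih (E →L[ℝ] G)
    obtain ⟨Cn, hCn0, hCn⟩ := bd_cpt hU hν hK hKU (j + 1)
    obtain ⟨Ci, hCi0, hCi⟩ := bd_cpt (u := (id : E → E)) isOpen_univ contDiff_id.contDiffOn hK
      (subset_univ _) (j + 1)
    set D : ℝ := 1 + Cn + Ci with hD
    refine ⟨C1 + ∑ i ∈ Finset.range (j + 1), (j.choose i : ℝ) * ((i.factorial : ℝ) * D ^ i) * Cn,
      by positivity, fun g B t q hg hB ht0 ht1 hq hm hb => ?_⟩
    have hνc : ContDiffOn ℝ SM (fun x => x + t • ν x) U := contDiffOn_id.add (hν.const_smul t)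
    have hs : IsOpen {x | x ∈ U ∧ x + t • ν x ∈ Ω} := hνc.continuousOn.isOpen_inter_preimage hU hΩ
    have hqs : q ∈ {x | x ∈ U ∧ x + t • ν x ∈ Ω} := ⟨hKU hq, hm⟩
    have hg' : ContDiffOn ℝ SM (fderiv ℝ g) Ω := hg.fderiv_of_isOpen hΩ sm_add
    have hν' : ContDiffOn ℝ SM (fderiv ℝ ν) U := hν.fderiv_of_isOpen hU sm_add
    have hν'q : ContDiffAt ℝ SM (fderiv ℝ ν) q := hν'.contDiffAt (hU.mem_nhds (hKU hq))
    have hgq : ContDiffAt ℝ SM (fun x => fderiv ℝ g (x + t • ν x)) q :=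
      (hg'.contDiffAt (hΩ.mem_nhds hm)).comp q (hνc.contDiffAt (hU.mem_nhds (hKU hq)))
    have e1 : fderiv ℝ (fun x => g (x + t • ν x)) =ᶠ[nhds q]
        (fun x => fderiv ℝ g (x + t • ν x)
          + t • (ContinuousLinearMap.compL ℝ E E G (fderiv ℝ g (x + t • ν x))) (fderiv ℝ ν x)) := by
      filter_upwards [hs.mem_nhds hqs] with x hx
      have d1 : HasFDerivAt ν (fderiv ℝ ν x) x :=
        ((hν.contDiffAt (hU.mem_nhds hx.1)).differentiableAt (by simp)).hasFDerivAt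
      have d2 : HasFDerivAt g (fderiv ℝ g (x + t • ν x)) (x + t • ν x) :=
        ((hg.contDiffAt (hΩ.mem_nhds hx.2)).differentiableAt (by simp)).hasFDerivAt
      have d3 := d2.comp x ((hasFDerivAt_id x).add (d1.const_smul t))
      refine (HasFDerivAt.fderiv (f := fun x => g (x + t • ν x)) d3).trans ?_
      ext v
      simp [ContinuousLinearMap.compL_apply]
    have e2 : iteratedFDeriv ℝ j (fderiv ℝ (fun x => g (x + t • ν x))) q
        = iteratedFDeriv ℝ j (fun x => fderiv ℝ g (x + t • ν x)) q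
          + t • iteratedFDeriv ℝ j (fun x =>
            (ContinuousLinearMap.compL ℝ E E G (fderiv ℝ g (x + t • ν x))) (fderiv ℝ ν x)) q := by
      have h2 : ContDiffAt ℝ (j : WithTop ℕ∞) (fun x =>
            (ContinuousLinearMap.compL ℝ E E G (fderiv ℝ g (x + t • ν x))) (fderiv ℝ ν x)) q := by
        refine ContDiffAt.clm_apply ?_ (hν'q.of_le (nat_le_SM j))
        exact (ContinuousLinearMap.contDiff _).contDiffAt.comp q (hgq.of_le (nat_le_SM j))
      have h5 := iteratedFDeriv_add_apply (𝕜 := ℝ) (f := fun x => fderiv ℝ g (x + t • ν x))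
        (g := t • (fun x => (ContinuousLinearMap.compL ℝ E E G (fderiv ℝ g (x + t • ν x)))
          (fderiv ℝ ν x))) (i := j) (x := q) (hgq.of_le (nat_le_SM j)) (h2.const_smul t)
      rw [iteratedFDeriv_const_smul_apply (a := t) h2] at h5
      rw [(e1.iteratedFDeriv ℝ j).eq_of_nhds]
      exact h5
    have hu1 : ∀ i ≤ j, ‖iteratedFDeriv ℝ i (fun x => fderiv ℝ g (x + t • ν x)) q‖
        ≤ (i.factorial : ℝ) * B * D ^ i := by
      intro i hi
      refine comp_bd hΩ hs (hg'.of_le (nat_le_SM i)) ((hνc.of_le (nat_le_SM i)).mono fun x hx => hx.1)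
        (fun x hx => hx.2) hqs (fun l hl => ?_) (fun l h1 h2 => ?_)
      · rw [norm_iteratedFDeriv_fderiv]
        exact hb (l + 1) (by omega)
      · exact psi_bd hU hν (hKU hq) (fun i hi => hCn i (by omega) q hq) ht0 ht1
          (fun i hi => hCi i (by omega) q hq) l h1 h2
    have hu2 : ‖iteratedFDeriv ℝ j (fun x =>
            (ContinuousLinearMap.compL ℝ E E G (fderiv ℝ g (x + t • ν x))) (fderiv ℝ ν x)) q‖
        ≤ (∑ i ∈ Finset.range (j + 1), (j.choose i : ℝ) * ((i.factorial : ℝ) * D ^ i) * Cn) * B := by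
      have h := (ContinuousLinearMap.compL ℝ E E G).norm_iteratedFDerivWithin_le_of_bilinear_of_le_one
        (f := fun x => fderiv ℝ g (x + t • ν x)) (g := fderiv ℝ ν) (N := SM) (x := q)
        (s := {x | x ∈ U ∧ x + t • ν x ∈ Ω})
        (hg'.comp (hνc.mono fun x hx => hx.1) fun x hx => hx.2)
        (hν'.mono fun x hx => hx.1) hs.uniqueDiffOn hqs (nat_le_SM j)
        (ContinuousLinearMap.norm_compL_le _ _ _ _)
      rw [iteratedFDerivWithin_of_isOpen j hs hqs] at h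
      refine h.trans ?_
      rw [Finset.sum_mul]
      refine Finset.sum_le_sum fun i hi => ?_
      have hi' : i ≤ j := by
        have := Finset.mem_range.1 hi
        omega
      rw [iteratedFDerivWithin_of_isOpen i hs hqs, iteratedFDerivWithin_of_isOpen (j - i) hs hqs,
        norm_iteratedFDeriv_fderiv]
      calc (j.choose i : ℝ) * ‖iteratedFDeriv ℝ i (fun x => fderiv ℝ g (x + t • ν x)) q‖
            * ‖iteratedFDeriv ℝ (j - i + 1) ν q‖
          ≤ (j.choose i : ℝ) * ((i.factorial : ℝ) * B * D ^ i) * Cn := by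
            refine mul_le_mul (mul_le_mul_of_nonneg_left (hu1 i hi') (Nat.cast_nonneg _))
              (hCn _ (by omega) q hq) (norm_nonneg _) (by positivity)
        _ = (j.choose i : ℝ) * ((i.factorial : ℝ) * D ^ i) * Cn * B := by ring
    rw [diff_succ, e2, add_sub_right_comm]
    have h5 := hC1 (fderiv ℝ g) B t q hg' hB ht0 ht1 hq hm fun i hi => by
      rw [norm_iteratedFDeriv_fderiv]
      exact hb (i + 1) (by omega)
    refine (norm_add_le _ _).trans ?_
    rw [norm_smul, Real.norm_of_nonneg ht0]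
    calc _ ≤ C1 * B * t + t * ((∑ i ∈ Finset.range (j + 1),
          (j.choose i : ℝ) * ((i.factorial : ℝ) * D ^ i) * Cn) * B) :=
        add_le_add h5 (mul_le_mul_of_nonneg_left hu2 ht0)
      _ = _ := by ring

end

end Pool.Agent.AK.H32
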