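import Pool.Agent.Helper32_AK.Diff

/-!
# AK modules L0 and L1
-/

set_option autoImplicit false

namespace Pool.Agent.AK.H32

open Complex Set

theorem l0' : L0Stmt := by
  intro Ω ρ f k0 B V t0 c2 hA
  obtain ⟨hdom, hbf, hk0, hgeo⟩ := hA
  have hΩ : IsOpen Ω := by
    rw [hdom.eq]
    exact isOpen_lt hdom.smooth.continuous continuous_const
  obtain ⟨Cn, hCn0, hCn⟩ := bd_cpt (open_g2 hdom.smooth) (smooth_nu hdom.smooth) hgeo.cpt
    hgeo.g2ne k0
  obtain ⟨Ct, hCt0, hCt⟩ := bd_cpt isOpen_univ (smooth_tau hdom.smooth).contDiffOn hgeo.cpt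
    (subset_univ _) k0
  obtain ⟨Ci, hCi0, hCi⟩ := bd_cpt (u := (id : C2 → C2)) isOpen_univ contDiff_id.contDiffOn
    hgeo.cpt (subset_univ _) k0
  set D : ℝ := 1 + Ci + Cn + Ct with hD
  have hD1 : 1 ≤ D := by linarith
  refine ⟨(k0.factorial : ℝ) * |B| * D ^ k0, fun j hj t ht0 ht1 q hq hρ lam hlam => ?_⟩
  have hq' : q ∈ closure V := subset_closure hq
  have ht2 : t ≤ 1 := ht1.trans hgeo.t0le
  have hlam1 : ‖lam‖ ≤ 1 := by
    refine hlam.trans ?_
    have h1 : Real.sqrt t ≤ 1 := Real.sqrt_le_one.2 ht2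
    nlinarith [Real.sqrt_nonneg t, hgeo.c2pos, hgeo.c2le]
  have htn : ‖(t : ℂ)‖ ≤ 1 := by
    rw [norm_real, Real.norm_of_nonneg ht0.le]
    exact ht2
  have hm : q + (t : ℂ) • nu ρ q + lam • tau ρ q ∈ Ω := by
    rw [hdom.eq]
    have := hgeo.disc q hq' t ht0 ht1 hρ.le lam hlam
    exact lt_of_le_of_lt this (by linarith)
  have hΦ : ContDiffOn ℝ SM (fun x => x + (t : ℂ) • nu ρ x + lam • tau ρ x)
      {p | g2 ρ p ≠ 0} :=
    (contDiffOn_id.add ((smooth_nu hdom.smooth).const_smul (t : ℂ))).add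
      ((smooth_tau hdom.smooth).contDiffOn.const_smul lam)
  have hs : IsOpen {x | x ∈ {p | g2 ρ p ≠ 0} ∧ x + (t : ℂ) • nu ρ x + lam • tau ρ x ∈ Ω} :=
    hΦ.continuousOn.isOpen_inter_preimage (open_g2 hdom.smooth) hΩ
  have hb := comp_bd (g := f) (j := j) (C := |B|) (D := D) hΩ hs
    (hbf.smooth.of_le (nat_le_SM j)) ((hΦ.of_le (nat_le_SM j)).mono fun x hx => hx.1)
    (fun x hx => hx.2) (x := q) ⟨hgeo.g2ne q hq', hm⟩
    (fun i hi => (hbf.bdd i (hi.trans hj) _ hm).trans (le_abs_self B)) (fun i h1 h2 => ?_)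
  · refine hb.trans ?_
    have h1 : (j.factorial : ℝ) ≤ k0.factorial := Nat.cast_le.2 (Nat.factorial_le hj)
    have h2 : D ^ j ≤ D ^ k0 := pow_le_pow_right₀ hD1 hj
    exact mul_le_mul (mul_le_mul_of_nonneg_right h1 (abs_nonneg B)) h2 (by positivity)
      (by positivity)
  · have hi : i ≤ k0 := h2.trans hj
    have hνq : ContDiffAt ℝ (i : WithTop ℕ∞) (nu ρ) q :=
      ((smooth_nu hdom.smooth).contDiffAt ((open_g2 hdom.smooth).mem_nhds
        (hgeo.g2ne q hq'))).of_le (nat_le_SM i)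
    have hτq : ContDiffAt ℝ (i : WithTop ℕ∞) (tau ρ) q :=
      (smooth_tau hdom.smooth).contDiffAt.of_le (nat_le_SM i)
    have e : iteratedFDeriv ℝ i (fun x => x + (t : ℂ) • nu ρ x + lam • tau ρ x) q
        = iteratedFDeriv ℝ i (id : C2 → C2) q + (t : ℂ) • iteratedFDeriv ℝ i (nu ρ) q
          + lam • iteratedFDeriv ℝ i (tau ρ) q := by
      have h5 := iteratedFDeriv_add_apply (𝕜 := ℝ) (f := (id : C2 → C2)) (g := (t : ℂ) • nu ρ)
        (i := i) (x := q) contDiffAt_id (hνq.const_smul (t : ℂ))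
      have h6 := iteratedFDeriv_add_apply (𝕜 := ℝ) (f := (id : C2 → C2) + (t : ℂ) • nu ρ)
        (g := lam • tau ρ) (i := i) (x := q)
        (contDiffAt_id.add (hνq.const_smul (t : ℂ))) (hτq.const_smul lam)
      rw [h5, iteratedFDeriv_const_smul_apply (a := (t : ℂ)) hνq,
        iteratedFDeriv_const_smul_apply (a := lam) hτq] at h6
      exact h6
    rw [e]
    have b1 := hCi i hi q hq'
    have b2 : ‖(t : ℂ) • iteratedFDeriv ℝ i (nu ρ) q‖ ≤ Cn := by
      rw [norm_smul]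
      nlinarith [hCn i hi q hq', norm_nonneg (iteratedFDeriv ℝ i (nu ρ) q), norm_nonneg (t : ℂ)]
    have b3 : ‖lam • iteratedFDeriv ℝ i (tau ρ) q‖ ≤ Ct := by
      rw [norm_smul]
      nlinarith [hCt i hi q hq', norm_nonneg (iteratedFDeriv ℝ i (tau ρ) q), norm_nonneg lam]
    calc _ ≤ ‖iteratedFDeriv ℝ i (id : C2 → C2) q‖ + ‖(t : ℂ) • iteratedFDeriv ℝ i (nu ρ) q‖
          + ‖lam • iteratedFDeriv ℝ i (tau ρ) q‖ :=
          (norm_add_le _ _).trans (add_le_add_left (norm_add_le _ _) _)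
      _ ≤ D := by linarith
      _ ≤ D ^ i := le_self_pow₀ hD1 (by omega)

/-- module L0 -/
theorem l0 (_ : F1aStmt) : L0Stmt := l0'

theorem unif_all {Ω : Set C2} {f : C2 → ℂ} {k0 : ℕ} {B : ℝ} (hbf : BdF Ω f k0 B) {δ : ℝ}
    (hδ : 0 < δ) (n : ℕ) (hn : n ≤ k0) :
    ∃ r : ℝ, 0 < r ∧ ∀ j ≤ n, ∀ x ∈ Ω, ∀ y ∈ Ω, ‖x - y‖ < r →
      ‖iteratedFDeriv ℝ j f x - iteratedFDeriv ℝ j f y‖ ≤ δ := by
  induction n with
  | zero =>
    obtain ⟨r, hr, h⟩ := hbf.unif 0 (Nat.zero_le _) δ hδ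
    refine ⟨r, hr, fun j hj => ?_⟩
    obtain rfl : j = 0 := by omega
    exact h
  | succ n ih =>
    obtain ⟨r, hr, h⟩ := ih (by omega)
    obtain ⟨r', hr', h'⟩ := hbf.unif (n + 1) hn δ hδ
    refine ⟨min r r', lt_min hr hr', fun j hj x hx y hy hxy => ?_⟩
    rcases Nat.lt_or_ge j (n + 1) with h1 | h1
    · exact h j (by omega) x hx y hy (lt_of_lt_of_le hxy (min_le_left _ _))
    · obtain rfl : j = n + 1 := by omega
      exact h' x hx y hy (lt_of_lt_of_le hxy (min_le_right _ _))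

/-- module L1 -/
theorem l1' : L1Stmt := by
  intro Ω ρ f k0 B V t0 c2 hA δ hδ
  obtain ⟨hdom, hbf, hk0, hgeo⟩ := hA
  have hΩ : IsOpen Ω := by
    rw [hdom.eq]
    exact isOpen_lt hdom.smooth.continuous continuous_const
  have hcl := fun j => diff_comp hΩ (open_g2 hdom.smooth) (smooth_nu hdom.smooth) hgeo.cpt
    hgeo.g2ne j ℂ
  choose C hC0 hC using hcl
  obtain ⟨Cn, hCn0, hCn⟩ := bd_cpt (open_g2 hdom.smooth) (smooth_nu hdom.smooth) hgeo.cpt
    hgeo.g2ne 0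
  obtain ⟨r', hr', hun⟩ := unif_all hbf (half_pos hδ) k0 le_rfl
  set Cm : ℝ := ∑ j ∈ Finset.range (k0 + 1), C j with hCm
  have hCm0 : 0 ≤ Cm := Finset.sum_nonneg fun j _ => hC0 j
  have hCj : ∀ j ≤ k0, C j ≤ Cm := fun j hj =>
    Finset.single_le_sum (f := C) (fun i _ => hC0 i) (Finset.mem_range.2 (by omega))
  set r : ℝ := min t0 (min (r' / (2 * (1 + Cn))) (δ / (2 * (Cm * |B| + 1)))) with hr
  have h1 : 0 < 2 * (1 + Cn) := by positivity
  have h2 : 0 < 2 * (Cm * |B| + 1) := by positivity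
  have hr0 : 0 < r := lt_min hgeo.t0pos (lt_min (by positivity) (by positivity))
  have hrt : r ≤ t0 := min_le_left _ _
  have hr1 : r * (2 * (1 + Cn)) ≤ r' := by
    rw [← le_div_iff₀ h1]
    exact (min_le_right _ _).trans (min_le_left _ _)
  have hr2 : r * (2 * (Cm * |B| + 1)) ≤ δ := by
    rw [← le_div_iff₀ h2]
    exact (min_le_right _ _).trans (min_le_right _ _)
  refine ⟨r, hr0, hrt, fun t ht0 htr q hq hρ p hp hpq j hj => ?_⟩
  have hq' : q ∈ closure V := subset_closure hq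
  have ht1 : t ≤ t0 := htr.le.trans hrt
  have hm : q + t • nu ρ q ∈ Ω := by
    rw [hdom.eq]
    have := hgeo.disc q hq' t ht0 ht1 hρ.le 0 (by
      rw [norm_zero]
      exact mul_nonneg hgeo.c2pos.le (Real.sqrt_nonneg t))
    rw [zero_smul, add_zero] at this
    exact lt_of_le_of_lt this (by linarith)
  have e : (fun x => f (x + (t : ℂ) • nu ρ x)) = fun x => f (x + t • nu ρ x) := rfl
  have b1 := hC j f |B| t q hbf.smooth (abs_nonneg B) ht0.le (ht1.trans hgeo.t0le) hq' hm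
    fun i hi => (hbf.bdd i (hi.trans hj) _ hm).trans (le_abs_self B)
  have hnu : ‖nu ρ q‖ ≤ Cn := by
    have := hCn 0 le_rfl q hq'
    rwa [norm_iteratedFDeriv_zero] at this
  have b2 := hun j hj (q + t • nu ρ q) hm p hp (by
    have e2 : q + t • nu ρ q - p = (q - p) + t • nu ρ q := by abel
    rw [e2]
    refine lt_of_le_of_lt (norm_add_le _ _) ?_
    rw [norm_smul, Real.norm_of_nonneg ht0.le, norm_sub_rev q p]
    nlinarith [norm_nonneg (nu ρ q)])
  rw [e]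
  have b3 : C j * |B| * t ≤ δ / 2 := by
    have h3 : C j * |B| ≤ Cm * |B| := mul_le_mul_of_nonneg_right (hCj j hj) (abs_nonneg B)
    have h4 : C j * |B| * t ≤ Cm * |B| * r :=
      mul_le_mul h3 htr.le ht0.le (by positivity)
    nlinarith
  calc _ = ‖(iteratedFDeriv ℝ j (fun x => f (x + t • nu ρ x)) q
          - iteratedFDeriv ℝ j f (q + t • nu ρ q))
        + (iteratedFDeriv ℝ j f (q + t • nu ρ q) - iteratedFDeriv ℝ j f p)‖ := by
        rw [sub_add_sub_cancel]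
    _ ≤ _ := norm_add_le _ _
    _ ≤ δ / 2 + δ / 2 := add_le_add (b1.trans b3) b2
    _ = δ := add_halves δ

theorem l1 (_ : L0Stmt) : L1Stmt := l1'

end Pool.Agent.AK.H32
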